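import Pool.Agent.J6H70.AD.AvgDef

/-!
# Averaging to arbitrary order, analytic part 1: the evaluation of formal trigonometric polynomials
-/

set_option autoImplicit false

open Set Filter Topology
open scoped ContDiff

noncomputable section

namespace Pool.Agent.J6H33.AD

open Pool.Agent.N980.TL Pool.Agent.J6H70.AD

variable {n N : ℕ}

/-- the phase of a mode -/
def ff (γ : Md n) (θ : Fin n → ℝ) (τ : ℝ) : ℝ := (∑ i, (γ.1 i : ℝ) * θ i) + γ.2 * τ

/-- the exponential of a mode -/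
def ee (γ : Md n) (θ : Fin n → ℝ) (τ : ℝ) : ℂ :=
  Complex.exp (2 * Real.pi * Complex.I * ((ff γ θ τ : ℝ) : ℂ))

theorem ff_add (γ δ : Md n) (θ : Fin n → ℝ) (τ : ℝ) : ff (γ + δ) θ τ = ff γ θ τ + ff δ θ τ := by
  unfold ff
  simp only [Prod.fst_add, Prod.snd_add, Pi.add_apply, Int.cast_add, add_mul, Finset.sum_add_distrib]
  ring

theorem ff_zero (θ : Fin n → ℝ) (τ : ℝ) : ff (0 : Md n) θ τ = 0 := by
  unfold ff
  simp

theorem ff_neg (γ : Md n) (θ : Fin n → ℝ) (τ : ℝ) : ff (-γ) θ τ = -ff γ θ τ := by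
  have h := ff_add γ (-γ) θ τ
  rw [add_neg_cancel, ff_zero] at h
  linarith

theorem ee_add (γ δ : Md n) (θ : Fin n → ℝ) (τ : ℝ) : ee (γ + δ) θ τ = ee γ θ τ * ee δ θ τ := by
  unfold ee
  rw [← Complex.exp_add, ff_add]
  congr 1
  push_cast
  ring

theorem ee_zero (θ : Fin n → ℝ) (τ : ℝ) : ee (0 : Md n) θ τ = 1 := by
  unfold ee
  rw [ff_zero]
  simp

theorem ee_eq (γ : Md n) (θ : Fin n → ℝ) (τ : ℝ) :
    ee γ θ τ = Complex.exp (((2 * Real.pi * ff γ θ τ : ℝ) : ℂ) * Complex.I) := by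
  unfold ee
  congr 1
  push_cast
  ring

theorem norm_ee (γ : Md n) (θ : Fin n → ℝ) (τ : ℝ) : ‖ee γ θ τ‖ = 1 := by
  rw [ee_eq]
  exact Complex.norm_exp_ofReal_mul_I _

theorem ee_neg (γ : Md n) (θ : Fin n → ℝ) (τ : ℝ) : ee (-γ) θ τ = (starRingEnd ℂ) (ee γ θ τ) := by
  rw [ee_eq, ee_eq, ← Complex.exp_conj, ff_neg]
  congr 1
  rw [map_mul, Complex.conj_I, Complex.conj_ofReal]
  push_cast
  ring

variable (v θ : Fin n → ℝ) (τ : ℝ)

theorem ev_eq (f : RR n) : ev v θ τ f = ∑ γ ∈ f.coeff.support, f.coeff γ v * ee γ θ τ := rfl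

theorem ev_of_subset (f : RR n) (s : Finset (Md n)) (hs : f.coeff.support ⊆ s) :
    ev v θ τ f = ∑ γ ∈ s, f.coeff γ v * ee γ θ τ := by
  rw [ev_eq]
  refine Finset.sum_subset hs fun γ _ hγ => ?_
  rw [Finsupp.notMem_support_iff.1 hγ]
  simp

theorem ev_add (f g : RR n) : ev v θ τ (f + g) = ev v θ τ f + ev v θ τ g := by
  classical
  have h1 := ev_of_subset v θ τ f (f.coeff.support ∪ g.coeff.support) Finset.subset_union_left
  have h2 := ev_of_subset v θ τ g (f.coeff.support ∪ g.coeff.support) Finset.subset_union_right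
  have h3 := ev_of_subset v θ τ (f + g) (f.coeff.support ∪ g.coeff.support)
    (by rw [AddMonoidAlgebra.coeff_add]; exact Finsupp.support_add)
  rw [h1, h2, h3, ← Finset.sum_add_distrib]
  refine Finset.sum_congr rfl fun γ _ => ?_
  rw [AddMonoidAlgebra.coeff_add, Finsupp.add_apply, Pi.add_apply, add_mul]

theorem ev_zero : ev v θ τ (0 : RR n) = 0 := by
  rw [ev_eq]
  simp

theorem ev_smul (c : ℂ) (f : RR n) : ev v θ τ (c • f) = c * ev v θ τ f := by
  rw [ev_of_subset v θ τ (c • f) f.coeff.support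
    (by rw [AddMonoidAlgebra.coeff_smul]; exact Finsupp.support_smul), ev_eq, Finset.mul_sum]
  refine Finset.sum_congr rfl fun γ _ => ?_
  rw [AddMonoidAlgebra.coeff_smul, Finsupp.smul_apply, Pi.smul_apply, smul_eq_mul, mul_assoc]

theorem ev_neg (f : RR n) : ev v θ τ (-f) = -ev v θ τ f := by
  have h := ev_smul v θ τ (-1) f
  rwa [neg_one_smul, neg_one_mul] at h

theorem ev_sub (f g : RR n) : ev v θ τ (f - g) = ev v θ τ f - ev v θ τ g := by
  rw [sub_eq_add_neg, ev_add, ev_neg, sub_eq_add_neg]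

theorem ev_single (γ : Md n) (a : Fc n) :
    ev v θ τ (AddMonoidAlgebra.single γ a) = a v * ee γ θ τ := by
  classical
  rw [ev_of_subset v θ τ _ {γ} (by
    intro δ hδ
    rw [Finsupp.mem_support_iff, AddMonoidAlgebra.coeff_single, Finsupp.single_apply] at hδ
    rw [Finset.mem_singleton]
    by_contra h
    exact hδ (if_neg (Ne.symm h))), Finset.sum_singleton, AddMonoidAlgebra.coeff_single,
    Finsupp.single_eq_same]

theorem ev_mul (f g : RR n) : ev v θ τ (f * g) = ev v θ τ f * ev v θ τ g := by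
  induction f using AddMonoidAlgebra.induction_linear with
  | zero => rw [zero_mul, ev_zero, zero_mul]
  | add f1 f2 h1 h2 => rw [add_mul, ev_add, h1, h2, ev_add, add_mul]
  | single γ a =>
    induction g using AddMonoidAlgebra.induction_linear with
    | zero => rw [mul_zero, ev_zero, mul_zero]
    | add f1 f2 h1 h2 => rw [mul_add, ev_add, h1, h2, ev_add, mul_add]
    | single δ b =>
      rw [AddMonoidAlgebra.single_mul_single, ev_single, ev_single, ev_single, ee_add, Pi.mul_apply]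
      ring

theorem ev_one : ev v θ τ (1 : RR n) = 1 := by
  rw [AddMonoidAlgebra.one_def, ev_single, ee_zero]
  simp

theorem ev_pow (f : RR n) (j : ℕ) : ev v θ τ (f ^ j) = ev v θ τ f ^ j := by
  induction j with
  | zero => rw [pow_zero, pow_zero, ev_one]
  | succ j ih => rw [pow_succ, pow_succ, ev_mul, ih]

theorem ev_sum {ι : Type*} (s : Finset ι) (f : ι → RR n) :
    ev v θ τ (∑ i ∈ s, f i) = ∑ i ∈ s, ev v θ τ (f i) := by
  classical
  induction s using Finset.induction_on with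
  | empty => rw [Finset.sum_empty, Finset.sum_empty, ev_zero]
  | insert i s hi ih => rw [Finset.sum_insert hi, Finset.sum_insert hi, ev_add, ih]

theorem ev_real (f : RR n) (hf : Herm f) : (starRingEnd ℂ) (ev v θ τ f) = ev v θ τ f := by
  have hs : ∀ γ ∈ f.coeff.support, -γ ∈ f.coeff.support := by
    intro γ hγ
    rw [Finsupp.mem_support_iff] at hγ ⊢
    intro h0
    apply hγ
    funext w
    have h := hf γ w
    rw [h0, Pi.zero_apply] at h
    have := congrArg (starRingEnd ℂ) h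
    rw [map_zero, Complex.conj_conj] at this
    exact this.symm
  rw [ev_eq, map_sum]
  refine Finset.sum_nbij' (fun γ => -γ) (fun γ => -γ) hs hs (fun γ _ => neg_neg γ) (fun γ _ => neg_neg γ) ?_
  intro γ _
  rw [map_mul, ee_neg, hf]

theorem ev_ofReal (f : RR n) (hf : Herm f) : (((ev v θ τ f).re : ℝ) : ℂ) = ev v θ τ f :=
  Complex.conj_eq_iff_re.1 (ev_real v θ τ f hf)

theorem ee_per (γ : Md n) (a : Fin n → ℤ) (b : ℤ) : ee γ (fun i => θ i + a i) (τ + b) = ee γ θ τ := by
  have e : ff γ (fun i => θ i + a i) (τ + b) = ff γ θ τ + (((∑ i, γ.1 i * a i) + γ.2 * b : ℤ) : ℝ) := by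
    unfold ff
    push_cast
    simp only [mul_add, Finset.sum_add_distrib]
    ring
  unfold ee
  rw [e]
  rw [Complex.ofReal_add, mul_add, Complex.exp_add]
  have : Complex.exp (2 * Real.pi * Complex.I * (((((∑ i, γ.1 i * a i) + γ.2 * b : ℤ) : ℝ)) : ℂ)) = 1 := by
    rw [Complex.exp_eq_one_iff]
    refine ⟨(∑ i, γ.1 i * a i) + γ.2 * b, ?_⟩
    push_cast
    ring
  rw [this, mul_one]

theorem ev_per (f : RR n) (a : Fin n → ℤ) (b : ℤ) : ev v (fun i => θ i + a i) (τ + b) f = ev v θ τ f := by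
  rw [ev_eq, ev_eq]
  exact Finset.sum_congr rfl fun γ _ => by rw [ee_per]

/-- the evaluation of the phase shift -/
theorem ev_zt (D : Trig n N) (ν : Fin N × Bool) (X : Fin n → RR n) (hX : ∀ i, Herm (X i)) :
    ev v θ τ (zt D ν X) =
      ((2 * Real.pi * ∑ j, (kk D ν j : ℝ) * (ev v θ τ (X j)).re : ℝ) : ℂ) * Complex.I := by
  unfold zt
  rw [ev_sum]
  push_cast
  rw [Finset.mul_sum, Finset.sum_mul]
  refine Finset.sum_congr rfl fun j _ => ?_
  rw [ev_smul, ← ev_ofReal v θ τ (X j) (hX j)]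
  simp only [Complex.ofReal_re]
  ring

/-- the truncated exponential function -/
def exT (J : ℕ) (z : ℂ) : ℂ := ∑ j ∈ Finset.range (J + 1), z ^ j / (j.factorial : ℂ)

theorem ev_ex (J : ℕ) (z : RR n) : ev v θ τ (ex J z) = exT J (ev v θ τ z) := by
  unfold ex exT
  rw [ev_sum]
  refine Finset.sum_congr rfl fun j _ => ?_
  rw [ev_smul, ev_pow, div_eq_inv_mul]

/-- the evaluation of the truncated force -/
theorem ev_GG (D : Trig n N) (J : ℕ) (X : Fin n → RR n) (i : Fin n) :
    ev v θ τ (GG D J X i) = ∑ ν, cf D ν * (2 * Real.pi * Complex.I * (kk D ν i : ℂ)) *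
      ee (kk D ν, mm D ν) θ τ * exT J (ev v θ τ (zt D ν X)) := by
  unfold GG
  rw [ev_sum]
  refine Finset.sum_congr rfl fun ν _ => ?_
  rw [ev_mul, ev_single, ev_ex]

/-- the gradient of `D` in exponential form -/
theorem grad_eq (D : Trig n N) (y : Fin n → ℝ) (i : Fin n) :
    ((D.grad (fun j => θ j + y j) τ i : ℝ) : ℂ) = ∑ ν, cf D ν * (2 * Real.pi * Complex.I * (kk D ν i : ℂ)) *
      ee (kk D ν, mm D ν) θ τ *
        Complex.exp (((2 * Real.pi * ∑ j, (kk D ν j : ℝ) * y j : ℝ) : ℂ) * Complex.I) := by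
  rw [Fintype.sum_prod_type]
  unfold Trig.grad
  rw [Complex.ofReal_neg, Complex.ofReal_sum, ← Finset.sum_neg_distrib]
  refine Finset.sum_congr rfl fun μ _ => ?_
  rw [Fintype.sum_bool]
  have hs := Complex.ofReal_sin (D.phase μ (fun j => θ j + y j) τ)
  rw [Complex.sin] at hs
  have e1 : Complex.exp (((if (true : Bool) then D.ph μ else -D.ph μ : ℝ) : ℂ) * Complex.I) *
      ee (D.k μ, D.m μ) θ τ * Complex.exp (((2 * Real.pi * ∑ j, (D.k μ j : ℝ) * y j : ℝ) : ℂ) * Complex.I) =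
      Complex.exp (((D.phase μ (fun j => θ j + y j) τ : ℝ) : ℂ) * Complex.I) := by
    rw [ee_eq, ← Complex.exp_add, ← Complex.exp_add]
    congr 1
    unfold ff Trig.phase
    simp only [mul_add, Finset.sum_add_distrib, if_true]
    push_cast
    ring
  have e2 : Complex.exp (((if (false : Bool) then D.ph μ else -D.ph μ : ℝ) : ℂ) * Complex.I) *
      ee (-D.k μ, -D.m μ) θ τ *
        Complex.exp (((2 * Real.pi * ∑ j, ((-D.k μ) j : ℝ) * y j : ℝ) : ℂ) * Complex.I) =
      Complex.exp (-((D.phase μ (fun j => θ j + y j) τ : ℝ) : ℂ) * Complex.I) := by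
    rw [ee_eq, ← Complex.exp_add, ← Complex.exp_add]
    congr 1
    unfold ff Trig.phase
    simp only [mul_add, Finset.sum_add_distrib, Pi.neg_apply, Int.cast_neg, neg_mul, Finset.sum_neg_distrib]
    push_cast
    ring
  unfold cf kk mm
  simp only [if_true, Bool.false_eq_true, if_false] at e1 e2 ⊢
  push_cast at e1 e2 hs ⊢
  rw [hs]
  simp only [Pi.neg_apply, Int.cast_neg] at e2 ⊢
  linear_combination (-(D.c μ : ℂ) / 2 * (2 * Real.pi * Complex.I * (D.k μ i : ℂ))) * e1 +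
    ((D.c μ : ℂ) / 2 * (2 * Real.pi * Complex.I * (D.k μ i : ℂ))) * e2

end Pool.Agent.J6H33.AD
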