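import Pool.Agent.J6H33.AD.Ana1
import Pool.Agent.N980.TL.Gam

/-!
# Averaging to arbitrary order, analytic part 2: complex functions in the classes `B`
-/

set_option autoImplicit false

open Set Filter Topology
open scoped ContDiff

noncomputable section

namespace Pool.Agent.J6H33.AD

open Pool.Agent.N980.TL Pool.Agent.J6H70.AD
open Pool.Agent.N980.TL.Gam_

/-- complex functions in the classes -/
def CB {X : Type} (m : ℕ) (V ρ : X → ℝ) (F : X → ℝ → ℂ) : Prop :=
  B m V ρ (fun x s => (F x s).re) ∧ B m V ρ (fun x s => (F x s).im)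

variable {X : Type} {m : ℕ} {V ρ σ : X → ℝ} {F G : X → ℝ → ℂ}

theorem CB.mono (h0 : S_CLS) (hV : ∀ x, 1 ≤ V x) (h : CB m V ρ F) (K : ℝ) (hK : 0 ≤ K)
    (hρ : ∀ x, ρ x ≤ K * σ x) : CB m V σ F :=
  ⟨h.1.mono h0 hV K hK hρ, h.2.mono h0 hV K hK hρ⟩

theorem CB.le {m' : ℕ} (h : CB m V ρ F) (hm : m' ≤ m) : CB m' V ρ F := ⟨h.1.le hm, h.2.le hm⟩

theorem CB.add (h0 : S_CLS) (h : CB m V ρ F) (h' : CB m V ρ G) : CB m V ρ (fun x s => F x s + G x s) :=
  ⟨by simpa only [Complex.add_re] using h.1.add h0 h'.1, by simpa only [Complex.add_im] using h.2.add h0 h'.2⟩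

theorem CB.sub (h0 : S_CLS) (hV : ∀ x, 1 ≤ V x) (h : CB m V ρ F) (h' : CB m V ρ G) :
    CB m V ρ (fun x s => F x s - G x s) :=
  ⟨by simpa only [Complex.sub_re] using h.1.sub h0 hV h'.1,
    by simpa only [Complex.sub_im] using h.2.sub h0 hV h'.2⟩

theorem CB.mul (h0 : S_CLS) (hV : ∀ x, 1 ≤ V x) (hρ : ∀ x, 0 ≤ ρ x) (hσ : ∀ x, 0 ≤ σ x)
    (h : CB m V ρ F) (h' : CB m V σ G) : CB m V (fun x => ρ x * σ x) (fun x s => F x s * G x s) := by
  constructor
  · simp only [Complex.mul_re]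
    exact (h.1.mul h0 hV hρ hσ h'.1).sub h0 hV (h.2.mul h0 hV hρ hσ h'.2)
  · simp only [Complex.mul_im]
    exact (h.1.mul h0 hV hρ hσ h'.2).add h0 (h.2.mul h0 hV hρ hσ h'.1)

theorem CB.sum (h0 : S_CLS) (hV : ∀ x, 1 ≤ V x) {ι : Type} (S : Finset ι)
    (f : ι → X → ℝ → ℂ) (h : ∀ i, CB m V ρ (f i)) : CB m V ρ (fun x s => ∑ i ∈ S, f i x s) := by
  constructor
  · simp only [Complex.re_sum]
    exact B.sum h0 hV S _ fun i => (h i).1
  · simp only [Complex.im_sum]
    exact B.sum h0 hV S _ fun i => (h i).2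

theorem CB.const (h0 : S_CLS) (hV : ∀ x, 1 ≤ V x) (c : X → ℂ) (K : ℝ) (hK : 0 ≤ K)
    (hc : ∀ x, ‖c x‖ ≤ K * ρ x) : CB m V ρ (fun x _ => c x) :=
  ⟨B.const h0 hV _ K hK fun x => (Complex.abs_re_le_norm _).trans (hc x),
    B.const h0 hV _ K hK fun x => (Complex.abs_im_le_norm _).trans (hc x)⟩

theorem CB.ofReal (h0 : S_CLS) (hV : ∀ x, 1 ≤ V x) {g : X → ℝ → ℝ} (h : B m V ρ g) :
    CB m V ρ (fun x s => ((g x s : ℝ) : ℂ)) := by
  constructor
  · simp only [Complex.ofReal_re]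
    exact h
  · simp only [Complex.ofReal_im]
    exact B.const h0 hV _ 0 le_rfl fun x => by simp

theorem CB.exp (h0 : S_CLS) (hV : ∀ x, 1 ≤ V x) (K : ℝ) (hK : 1 ≤ K) (w p : X → ℝ)
    (hw : ∀ x, |w x| ≤ K * V x) :
    CB m V (fun _ => 1) (fun x s => Complex.exp (((p x + w x * s : ℝ) : ℂ) * Complex.I)) := by
  obtain ⟨h1, h2⟩ := B.lin (m := m) h0 hV K hK w p hw
  constructor
  · simp only [Complex.exp_ofReal_mul_I_re]
    exact h2
  · simp only [Complex.exp_ofReal_mul_I_im]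
    exact h1

theorem B.of_d {g g' : X → ℝ → ℝ} (hV : ∀ x, 1 ≤ V x) (hρ : ∀ x, 0 ≤ ρ x)
    (hg : ∀ x s, HasDerivAt (g x) (g' x s) s)
    (h : B 0 V ρ g) (h' : B m V (fun x => ρ x * V x) g') : B (m + 1) V ρ g := by
  obtain ⟨C, hC, h⟩ := h
  obtain ⟨C', hC', h'⟩ := h'
  refine ⟨max C C', le_max_of_le_left hC, fun x => ⟨(h x).1, fun i hi s hs => ?_⟩⟩
  have hVx := hV x
  have hρx := hρ x
  rcases Nat.eq_zero_or_pos i with h0 | h0
  · subst h0
    refine ((h x).2 0 le_rfl s hs).trans ?_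
    rw [pow_zero, mul_one, mul_one]
    exact mul_le_mul_of_nonneg_right (le_max_left _ _) hρx
  · obtain ⟨j, rfl⟩ : ∃ j, i = j + 1 := ⟨i - 1, by omega⟩
    rw [iteratedDeriv_succ']
    have e : deriv (g x) = g' x := funext fun s => (hg x s).deriv
    rw [e]
    refine ((h' x).2 j (by omega) s hs).trans ?_
    calc C' * (ρ x * V x) * V x ^ j = C' * (ρ x * V x ^ (j + 1)) := by ring
      _ ≤ max C C' * (ρ x * V x ^ (j + 1)) :=
          mul_le_mul_of_nonneg_right (le_max_right _ _) (by positivity)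
      _ = max C C' * ρ x * V x ^ (j + 1) := by ring

theorem hasDerivAt_re {f : ℝ → ℂ} {f' : ℂ} {s : ℝ} (h : HasDerivAt f f' s) :
    HasDerivAt (fun s => (f s).re) f'.re s :=
  Complex.reCLM.hasFDerivAt.comp_hasDerivAt s h

theorem hasDerivAt_im {f : ℝ → ℂ} {f' : ℂ} {s : ℝ} (h : HasDerivAt f f' s) :
    HasDerivAt (fun s => (f s).im) f'.im s :=
  Complex.imCLM.hasFDerivAt.comp_hasDerivAt s h

theorem CB.of_d {F' : X → ℝ → ℂ} (hV : ∀ x, 1 ≤ V x) (hρ : ∀ x, 0 ≤ ρ x)
    (hF : ∀ x s, HasDerivAt (F x) (F' x s) s)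
    (h : CB 0 V ρ F) (h' : CB m V (fun x => ρ x * V x) F') : CB (m + 1) V ρ F :=
  ⟨B.of_d hV hρ (fun x s => hasDerivAt_re (hF x s)) h.1 h'.1,
    B.of_d hV hρ (fun x s => hasDerivAt_im (hF x s)) h.2 h'.2⟩

/-- the remainder of the exponential series -/
def rem (K : ℕ) (y : ℝ) : ℂ :=
  Complex.exp ((y : ℂ) * Complex.I) - ∑ j ∈ Finset.range K, ((y : ℂ) * Complex.I) ^ j / (j.factorial : ℂ)

theorem rem_norm (K : ℕ) (y : ℝ) : ‖rem K y‖ ≤ |y| ^ K * Real.exp |y| := by
  have h := Complex.norm_exp_sub_sum_le_norm_mul_exp ((y : ℂ) * Complex.I) K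
  rw [norm_mul, Complex.norm_I, mul_one, Complex.norm_real, Real.norm_eq_abs] at h
  exact h

theorem rem_smooth (K : ℕ) : ContDiff ℝ ∞ (rem K) := by
  unfold rem
  have h1 : ContDiff ℝ ∞ (fun y : ℝ => (y : ℂ) * Complex.I) :=
    (Complex.ofRealCLM.contDiff).mul contDiff_const
  refine h1.cexp.sub (ContDiff.sum fun j _ => ?_)
  exact (h1.pow j).div_const _

theorem rem_deriv0 (y : ℝ) : HasDerivAt (rem 0) (Complex.I * rem 0 y) y := by
  have h1 : HasDerivAt (fun y : ℝ => (y : ℂ) * Complex.I) Complex.I y := by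
    have := (Complex.ofRealCLM.hasDerivAt (x := y)).mul_const Complex.I
    simpa using this
  have h2 := h1.cexp
  unfold rem
  simp only [Finset.range_zero, Finset.sum_empty, sub_zero]
  rw [mul_comm]
  exact h2

theorem rem_succ (K : ℕ) (y : ℝ) :
    rem (K + 1) y = rem K y - ((y : ℂ) * Complex.I) ^ K / (K.factorial : ℂ) := by
  unfold rem
  rw [Finset.sum_range_succ]
  ring

theorem rem_deriv (K : ℕ) (y : ℝ) : HasDerivAt (rem (K + 1)) (Complex.I * rem K y) y := by
  have h1 : HasDerivAt (fun y : ℝ => (y : ℂ) * Complex.I) Complex.I y := by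
    have := (Complex.ofRealCLM.hasDerivAt (x := y)).mul_const Complex.I
    simpa using this
  induction K with
  | zero =>
    have e : rem (0 + 1) = fun y => rem 0 y - 1 := by
      funext y
      rw [rem_succ]
      simp
    rw [e]
    exact (rem_deriv0 y).sub_const _
  | succ K ih =>
    have e : rem (K + 1 + 1) = fun y => rem (K + 1) y - ((y : ℂ) * Complex.I) ^ (K + 1) / ((K + 1).factorial : ℂ) := by
      funext y
      rw [rem_succ]
    rw [e]
    have h2 := ih.sub ((h1.pow (K + 1)).div_const ((K + 1).factorial : ℂ))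
    refine HasDerivAt.congr_deriv h2 ?_
    rw [rem_succ, mul_sub]
    congr 1
    have hf : ((K + 1).factorial : ℂ) = ((K : ℂ) + 1) * (K.factorial : ℂ) := by
      rw [Nat.factorial_succ]; push_cast; ring
    have hK : (K.factorial : ℂ) ≠ 0 := by exact_mod_cast Nat.factorial_ne_zero K
    have hK1 : (K : ℂ) + 1 ≠ 0 := by exact_mod_cast Nat.succ_ne_zero K
    rw [hf]
    simp only [Nat.add_sub_cancel]
    field_simp
    push_cast
    ring

/-- the remainder of the exponential series of a small function -/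
theorem remB (h0 : S_CLS) (hV : ∀ x, 1 ≤ V x) (hσ : ∀ x, 0 ≤ σ x) (hσ1 : ∀ x, σ x ≤ 1) (m : ℕ) :
    ∀ (K : ℕ) (y : X → ℝ → ℝ), B m V σ y → CB m V (fun x => σ x ^ K) (fun x s => rem K (y x s)) := by
  induction m with
  | zero =>
    intro K y hy
    have hsm : ∀ x, ContDiff ℝ ∞ (fun s => rem K (y x s)) := fun x => (rem_smooth K).comp (hy.sm x)
    obtain ⟨C, hC, h⟩ := hy
    have hb : ∀ x, ∀ s ∈ Icc (-1 : ℝ) 2, ‖rem K (y x s)‖ ≤ C ^ K * Real.exp C * σ x ^ K := by
      intro x s hs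
      have h1 := (h x).2 0 le_rfl s hs
      rw [iteratedDeriv_zero, pow_zero, mul_one] at h1
      have h2 : |y x s| ≤ C := h1.trans (mul_le_of_le_one_right hC (hσ1 x))
      calc ‖rem K (y x s)‖ ≤ |y x s| ^ K * Real.exp |y x s| := rem_norm K _
        _ ≤ (C * σ x) ^ K * Real.exp C :=
          mul_le_mul (pow_le_pow_left₀ (abs_nonneg _) h1 K) (Real.exp_le_exp.2 h2) (Real.exp_pos _).le
            (pow_nonneg (mul_nonneg hC (hσ x)) K)
        _ = _ := by rw [mul_pow]; ring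
    constructor
    · refine ⟨C ^ K * Real.exp C, by positivity, fun x => ⟨Complex.reCLM.contDiff.comp (hsm x), ?_⟩⟩
      intro i hi s hs
      obtain rfl : i = 0 := by omega
      rw [iteratedDeriv_zero, pow_zero, mul_one]
      exact (Complex.abs_re_le_norm _).trans (hb x s hs)
    · refine ⟨C ^ K * Real.exp C, by positivity, fun x => ⟨Complex.imCLM.contDiff.comp (hsm x), ?_⟩⟩
      intro i hi s hs
      obtain rfl : i = 0 := by omega
      rw [iteratedDeriv_zero, pow_zero, mul_one]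
      exact (Complex.abs_im_le_norm _).trans (hb x s hs)
  | succ m ih =>
    intro K y hy
    have hy0 : CB 0 V (fun x => σ x ^ K) (fun x s => rem K (y x s)) := by
      exact (ih K y (hy.le (Nat.le_succ m))).le (Nat.zero_le _)
    have hyd : B m V (fun x => σ x * V x) (fun x => deriv (y x)) := hy.d
    have hσV : ∀ x, 0 ≤ σ x * V x := fun x => mul_nonneg (hσ x) (by linarith [hV x])
    have hdy : ∀ x s, HasDerivAt (y x) (deriv (y x) s) s := fun x s =>
      (((hy.sm x).differentiable (by simp)) s).hasDerivAt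
    have hI : CB m V (fun _ => 1) (fun (_ : X) (_ : ℝ) => Complex.I) :=
      CB.const h0 hV _ 1 zero_le_one fun x => by simp
    have hyd' := CB.ofReal h0 hV hyd
    have key : ∀ J : ℕ, CB m V (fun x => σ x ^ J * (σ x * V x))
        (fun x s => Complex.I * rem J (y x s) * ((deriv (y x) s : ℝ) : ℂ)) := by
      intro J
      have h1 := (hI.mul h0 hV (fun _ => zero_le_one) (fun x => pow_nonneg (hσ x) J)
        (ih J y (hy.le (Nat.le_succ m)))).mul h0 hV (fun x => by have := pow_nonneg (hσ x) J; simpa using this)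
        hσV hyd'
      refine h1.mono h0 hV 1 zero_le_one fun x => ?_
      exact le_of_eq (by ring)
    cases K with
    | zero =>
      refine CB.of_d (F' := fun x s => Complex.I * rem 0 (y x s) * ((deriv (y x) s : ℝ) : ℂ)) hV
        (fun x => by simp) (fun x s => ?_) hy0 ?_
      · have h1 := (rem_deriv0 (y x s)).scomp s (hdy x s)
        refine HasDerivAt.congr_deriv h1 ?_
        rw [Complex.real_smul]
        ring
      · refine (key 0).mono h0 hV 1 zero_le_one fun x => ?_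
        have := mul_le_mul_of_nonneg_right (hσ1 x) (show 0 ≤ V x by linarith [hV x])
        simp only [pow_zero, one_mul]
        linarith
    | succ K =>
      refine CB.of_d (F' := fun x s => Complex.I * rem K (y x s) * ((deriv (y x) s : ℝ) : ℂ)) hV
        (fun x => pow_nonneg (hσ x) _) (fun x s => ?_) hy0 ?_
      · have h1 := (rem_deriv K (y x s)).scomp s (hdy x s)
        refine HasDerivAt.congr_deriv h1 ?_
        rw [Complex.real_smul]
        ring
      · refine (key K).mono h0 hV 1 zero_le_one fun x => ?_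
        exact le_of_eq (by ring)

end Pool.Agent.J6H33.AD
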