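import Pool.Agent.J6H33.AD.Ana2

/-!
# Averaging to arbitrary order, analytic part 3: formal trigonometric polynomials along lines
-/

set_option autoImplicit false

open Set Filter Topology
open scoped ContDiff

noncomputable section

namespace Pool.Agent.J6H33.AD

open Pool.Agent.N980.TL Pool.Agent.J6H70.AD
open Pool.Agent.N980.TL.Gam_

variable {n N : ℕ}

/-- uniform version of `Ord` -/
def OU (p S : ℕ) (f : RR n) : Prop :=
  ∀ c1 C1 : ℝ, 0 < c1 → ∃ C : ℝ, 0 ≤ C ∧ ∀ (V : ℝ) (v v' : Fin n → ℝ), 1 ≤ V →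
    NRS S c1 C1 V v → NRS S c1 C1 V v' → ∀ γ,
      ‖f.coeff γ v‖ ≤ C / V ^ p ∧ ‖f.coeff γ v - f.coeff γ v'‖ ≤ C / V ^ p * ‖v - v'‖

theorem OU.mono {p S S' : ℕ} {f : RR n} (h : S ≤ S') (hf : OU p S f) : OU p S' f := by
  intro c1 C1 hc
  obtain ⟨C, hC, hh⟩ := hf c1 C1 hc
  exact ⟨C, hC, fun V v v' hV h1 h2 γ => hh V v v' hV (h1.mono h) (h2.mono h) γ⟩

theorem Ord.unif {p : ℕ} {f : RR n} (hf : Ord p f) : ∃ S, OU p S f := by
  classical
  choose Sf hS using hf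
  refine ⟨f.coeff.support.sup Sf, fun c1 C1 hc => ?_⟩
  choose C hC h using fun γ => hS γ c1 C1 hc
  refine ⟨∑ γ ∈ f.coeff.support, C γ, Finset.sum_nonneg fun γ _ => hC γ, fun V v v' hV h1 h2 γ => ?_⟩
  have hVp : (0 : ℝ) < V ^ p := by positivity
  by_cases hγ : γ ∈ f.coeff.support
  · have hle : C γ ≤ ∑ γ ∈ f.coeff.support, C γ :=
      Finset.single_le_sum (f := C) (fun γ _ => hC γ) hγ
    have hSle : Sf γ ≤ f.coeff.support.sup Sf := Finset.le_sup hγ
    obtain ⟨x1, x2⟩ := h γ V v v' hV (h1.mono hSle) (h2.mono hSle)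
    have hd : C γ / V ^ p ≤ (∑ γ ∈ f.coeff.support, C γ) / V ^ p :=
      div_le_div_of_nonneg_right hle hVp.le
    exact ⟨x1.trans hd, x2.trans (mul_le_mul_of_nonneg_right hd (norm_nonneg _))⟩
  · rw [Finsupp.notMem_support_iff.1 hγ]
    have h0 : 0 ≤ (∑ γ ∈ f.coeff.support, C γ) / V ^ p :=
      div_nonneg (Finset.sum_nonneg fun γ _ => hC γ) hVp.le
    constructor
    · simpa using h0
    · simpa using mul_nonneg h0 (norm_nonneg _)

/-- frequency of a mode along a line -/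
def wf (γ : Md n) (v : Fin n → ℝ) : ℝ := 2 * Real.pi * ((∑ i, (γ.1 i : ℝ) * v i) + γ.2)

/-- phase of a mode at the beginning of a line -/
def pf (γ : Md n) (P : Fin n → ℝ) : ℝ := 2 * Real.pi * (∑ i, (γ.1 i : ℝ) * P i)

theorem ee_line (γ : Md n) (P v : Fin n → ℝ) (s : ℝ) :
    ee γ (P + s • v) s = Complex.exp (((pf γ P + wf γ v * s : ℝ) : ℂ) * Complex.I) := by
  rw [ee_eq]
  congr 3
  unfold ff pf wf
  simp only [Pi.add_apply, Pi.smul_apply, smul_eq_mul, mul_add, Finset.sum_add_distrib, add_mul]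
  have : ∑ i, (γ.1 i : ℝ) * (s * v i) = (∑ i, (γ.1 i : ℝ) * v i) * s := by
    rw [Finset.sum_mul]
    exact Finset.sum_congr rfl fun i _ => by ring
  rw [this]
  ring

/-- the bound of the frequencies -/
def kf (γ : Md n) (C1 : ℝ) : ℝ := 1 + 2 * Real.pi * ((∑ i, |(γ.1 i : ℝ)|) * |C1| + |(γ.2 : ℝ)|)

theorem kf_ge (γ : Md n) (C1 : ℝ) : 1 ≤ kf γ C1 := by
  unfold kf
  have : 0 ≤ 2 * Real.pi * ((∑ i, |(γ.1 i : ℝ)|) * |C1| + |(γ.2 : ℝ)|) := by
    have := Real.pi_pos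
    have h1 : 0 ≤ ∑ i, |(γ.1 i : ℝ)| := Finset.sum_nonneg fun i _ => abs_nonneg _
    positivity
  linarith

theorem sum_le (γ : Md n) (a : Fin n → ℝ) : |∑ i, (γ.1 i : ℝ) * a i| ≤ (∑ i, |(γ.1 i : ℝ)|) * ‖a‖ := by
  refine (Finset.abs_sum_le_sum_abs _ _).trans ?_
  rw [Finset.sum_mul]
  refine Finset.sum_le_sum fun i _ => ?_
  rw [abs_mul]
  exact mul_le_mul_of_nonneg_left (norm_le_pi_norm a i) (abs_nonneg _)

theorem wf_le (γ : Md n) (C1 V : ℝ) (v : Fin n → ℝ) (hV : 1 ≤ V) (hv : ‖v‖ ≤ C1 * V) :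
    |wf γ v| ≤ kf γ C1 * V := by
  unfold wf kf
  have hpi := Real.pi_pos
  have h1 : 0 ≤ ∑ i, |(γ.1 i : ℝ)| := Finset.sum_nonneg fun i _ => abs_nonneg _
  rw [abs_mul, abs_of_pos (by positivity : (0 : ℝ) < 2 * Real.pi)]
  have h2 : |(∑ i, (γ.1 i : ℝ) * v i) + γ.2| ≤ (∑ i, |(γ.1 i : ℝ)|) * (|C1| * V) + |(γ.2 : ℝ)| * V := by
    refine (abs_add_le _ _).trans (add_le_add ((sum_le γ v).trans ?_) ?_)
    · refine mul_le_mul_of_nonneg_left (hv.trans ?_) h1
      exact mul_le_mul_of_nonneg_right (le_abs_self _) (by linarith)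
    · exact le_mul_of_one_le_right (abs_nonneg _) hV
  have h3 := mul_le_mul_of_nonneg_left h2 (by positivity : (0 : ℝ) ≤ 2 * Real.pi)
  nlinarith

section

variable {X : Type} {m : ℕ} {V : X → ℝ} {P v : X → Fin n → ℝ} {S : ℕ} {c1 C1 : ℝ}

theorem eeCB (h0 : S_CLS) (hV : ∀ x, 1 ≤ V x) (hN : ∀ x, NRS S c1 C1 (V x) (v x)) (γ : Md n) :
    CB m V (fun _ => 1) (fun x s => ee γ (P x + s • v x) s) := by
  have h := CB.exp (m := m) h0 hV (kf γ C1) (kf_ge γ C1) (fun x => wf γ (v x)) (fun x => pf γ (P x))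
    (fun x => wf_le γ C1 (V x) (v x) (hV x) (hN x).2)
  have e : (fun x s => ee γ (P x + s • v x) s) =
      fun x s => Complex.exp (((pf γ (P x) + wf γ (v x) * s : ℝ) : ℂ) * Complex.I) := by
    funext x s
    exact ee_line γ (P x) (v x) s
  rw [e]
  exact h

/-- formal trigonometric polynomials along lines -/
theorem evCB (h0 : S_CLS) (hc : 0 < c1) (hV : ∀ x, 1 ≤ V x) (hN : ∀ x, NRS S c1 C1 (V x) (v x)) {p : ℕ}
    {f : RR n} (hf : OU p S f) :
    CB m V (fun x => 1 / V x ^ p) (fun x s => ev (v x) (P x + s • v x) s f) := by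
  obtain ⟨C, hC, h⟩ := hf c1 C1 hc
  have hp : ∀ x, 0 ≤ 1 / V x ^ p := fun x => by
    have := hV x
    positivity
  simp only [ev_eq]
  refine CB.sum h0 hV _ _ fun γ => ?_
  have h1 : CB m V (fun x => 1 / V x ^ p) (fun x (_ : ℝ) => f.coeff γ (v x)) := by
    refine CB.const h0 hV _ C hC fun x => ?_
    rw [mul_one_div]
    exact (h (V x) (v x) (v x) (hV x) (hN x) (hN x) γ).1
  have h2 := h1.mul h0 hV hp (fun _ => zero_le_one) (eeCB (P := P) h0 hV hN γ)
  exact h2.mono h0 hV 1 zero_le_one fun x => by simp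

theorem ee_deriv (γ : Md n) (P v : Fin n → ℝ) (s : ℝ) :
    HasDerivAt (fun s : ℝ => ee γ (P + s • v) s) (om γ v * ee γ (P + s • v) s) s := by
  have e : (fun s : ℝ => ee γ (P + s • v) s) =
      fun s : ℝ => Complex.exp (((pf γ P + wf γ v * s : ℝ) : ℂ) * Complex.I) := by
    funext s
    exact ee_line γ P v s
  rw [e, ee_line]
  have h1 : HasDerivAt (fun s : ℝ => pf γ P + wf γ v * s) (wf γ v) s := by
    have := ((hasDerivAt_id s).const_mul (wf γ v)).const_add (pf γ P)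
    simpa using this
  have h2 : HasDerivAt (fun s : ℝ => ((pf γ P + wf γ v * s : ℝ) : ℂ) * Complex.I)
      (((wf γ v : ℝ) : ℂ) * Complex.I) s := (h1.ofReal_comp).mul_const Complex.I
  refine HasDerivAt.congr_deriv h2.cexp ?_
  unfold om wf
  push_cast
  ring

theorem ev_deriv (P v : Fin n → ℝ) (f : RR n) (s : ℝ) :
    HasDerivAt (fun s : ℝ => ev v (P + s • v) s f) (ev v (P + s • v) s (dg om f)) s := by
  have hs : (dg om f).coeff.support ⊆ f.coeff.support := by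
    intro γ hγ
    rw [Finsupp.mem_support_iff, dg_coeff] at hγ
    rw [Finsupp.mem_support_iff]
    intro h
    exact hγ (by rw [h, mul_zero])
  rw [ev_of_subset v (P + s • v) s _ _ hs]
  simp only [ev_eq]
  refine HasDerivAt.fun_sum fun γ _ => ?_
  refine HasDerivAt.congr_deriv ((ee_deriv γ P v s).const_mul (f.coeff γ v)) ?_
  rw [dg_coeff, Pi.mul_apply]
  ring

theorem LL_eq (f : RR n) : LL f = dg om (dg om f) := by
  unfold LL
  ext γ : 2
  rw [dg_coeff, dg_coeff, dg_coeff, mul_assoc]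

theorem ev_deriv2 (P v : Fin n → ℝ) (f : RR n) (s : ℝ) :
    deriv (deriv fun s : ℝ => (ev v (P + s • v) s f).re) s = (ev v (P + s • v) s (LL f)).re := by
  have h1 : (deriv fun s : ℝ => (ev v (P + s • v) s f).re) = fun s => (ev v (P + s • v) s (dg om f)).re := by
    funext s
    exact (hasDerivAt_re (ev_deriv P v f s)).deriv
  rw [h1, LL_eq]
  exact (hasDerivAt_re (ev_deriv P v (dg om f) s)).deriv

end

theorem inv_sq_le {V : ℝ} (hV : 1 ≤ V) : 1 / V ^ 2 ≤ 1 := by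
  rw [div_le_one (by positivity)]
  exact one_le_pow₀ hV

/-- the phase shift is small -/
theorem ysB {X : Type} {m : ℕ} {V : X → ℝ} {P v : X → Fin n → ℝ} {S : ℕ} {c1 C1 : ℝ}
    (h0 : S_CLS) (hc : 0 < c1) (hV : ∀ x, 1 ≤ V x) (hN : ∀ x, NRS S c1 C1 (V x) (v x))
    (k : Fin n → ℤ) (Y : Fin n → RR n) (hY : ∀ i, OU 2 S (Y i)) :
    B m V (fun x => 1 / V x ^ 2)
      (fun x s => 2 * Real.pi * ∑ j, (k j : ℝ) * (ev (v x) (P x + s • v x) s (Y j)).re) := by
  refine B.cmul h0 hV (2 * Real.pi) (B.sum h0 hV Finset.univ _ fun j => ?_)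
  refine B.cmul h0 hV _ ?_
  exact (evCB (P := P) h0 hc hV hN (hY j)).1

/-- the residual force along a line -/
theorem res_eq (D : Trig n N) (K : ℕ) (Y : Fin n → RR n) (hH : ∀ i, Herm (Y i)) (P v : Fin n → ℝ) (s : ℝ)
    (i : Fin n) :
    deriv (deriv fun s => (ev v (P + s • v) s (Y i)).re) s -
      D.grad (fun j => P j + s * v j + (ev v (P + s • v) s (Y j)).re) s i =
    (ev v (P + s • v) s (LL (Y i) - GG D K Y i)).re -
      (∑ ν, cf D ν * (2 * Real.pi * Complex.I * (kk D ν i : ℂ)) * ee (kk D ν, mm D ν) (P + s • v) s *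
        rem (K + 1) (2 * Real.pi * ∑ j, (kk D ν j : ℝ) * (ev v (P + s • v) s (Y j)).re)).re := by
  have hg := grad_eq (P + s • v) s D (fun j => (ev v (P + s • v) s (Y j)).re) i
  have hGG := ev_GG v (P + s • v) s D K Y i
  have hsub : ∑ ν, cf D ν * (2 * Real.pi * Complex.I * (kk D ν i : ℂ)) * ee (kk D ν, mm D ν) (P + s • v) s *
        rem (K + 1) (2 * Real.pi * ∑ j, (kk D ν j : ℝ) * (ev v (P + s • v) s (Y j)).re) =
      ((D.grad (fun j => (P + s • v) j + (ev v (P + s • v) s (Y j)).re) s i : ℝ) : ℂ) -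
        ev v (P + s • v) s (GG D K Y i) := by
    rw [hg, hGG, ← Finset.sum_sub_distrib]
    refine Finset.sum_congr rfl fun ν _ => ?_
    rw [ev_zt v (P + s • v) s D ν Y hH]
    unfold rem exT
    ring
  rw [hsub, ev_sub, ev_deriv2, Complex.sub_re, Complex.sub_re, Complex.ofReal_re]
  have e : (fun j => P j + s * v j + (ev v (P + s • v) s (Y j)).re) =
      fun j => (P + s • v) j + (ev v (P + s • v) s (Y j)).re := rfl
  rw [e]
  ring

theorem resB {X : Type} {m : ℕ} {V : X → ℝ} {P v : X → Fin n → ℝ} {S : ℕ} {c1 C1 : ℝ}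
    (h0 : S_CLS) (hc : 0 < c1) (hV : ∀ x, 1 ≤ V x) (hN : ∀ x, NRS S c1 C1 (V x) (v x))
    (D : Trig n N) (K : ℕ) (Y : Fin n → RR n) (hY : ∀ i, OU 2 S (Y i)) (hH : ∀ i, Herm (Y i)) (i : Fin n)
    (hR : OU K S (LL (Y i) - GG D K Y i)) :
    B m V (fun x => 1 / V x ^ K) (fun x s =>
      deriv (deriv fun s => (ev (v x) (P x + s • v x) s (Y i)).re) s -
        D.grad (fun j => P x j + s * v x j + (ev (v x) (P x + s • v x) s (Y j)).re) s i) := by
  have hnn : ∀ x, 0 ≤ 1 / V x ^ 2 := fun x => by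
    have := hV x
    positivity
  have h1 := (evCB (m := m) (P := P) h0 hc hV hN hR).1
  have h2 : CB m V (fun x => 1 / V x ^ K) (fun x s =>
      ∑ ν, cf D ν * (2 * Real.pi * Complex.I * (kk D ν i : ℂ)) * ee (kk D ν, mm D ν) (P x + s • v x) s *
        rem (K + 1) (2 * Real.pi * ∑ j, (kk D ν j : ℝ) * (ev (v x) (P x + s • v x) s (Y j)).re)) := by
    refine CB.sum h0 hV Finset.univ _ fun ν => ?_
    have hr := remB h0 hV hnn (fun x => inv_sq_le (hV x)) m (K + 1) _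
      (ysB (m := m) (P := P) h0 hc hV hN (kk D ν) Y hY)
    have hcst : CB m V (fun _ => 1) (fun (_ : X) (_ : ℝ) => cf D ν * (2 * Real.pi * Complex.I * (kk D ν i : ℂ))) :=
      CB.const h0 hV _ ‖cf D ν * (2 * Real.pi * Complex.I * (kk D ν i : ℂ))‖ (norm_nonneg _) fun x => by
        rw [mul_one]
    have h3 := (hcst.mul h0 hV (fun _ => zero_le_one) (fun _ => zero_le_one)
      (eeCB (P := P) h0 hV hN (kk D ν, mm D ν))).mul h0 hV (fun _ => by norm_num)
      (fun x => pow_nonneg (hnn x) (K + 1)) hr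
    refine h3.mono h0 hV 1 zero_le_one fun x => ?_
    have hVx := hV x
    rw [one_mul, one_mul, one_mul, div_pow, one_pow, ← pow_mul]
    exact div_le_div_of_nonneg_left zero_le_one (by positivity) (pow_le_pow_right₀ hVx (by omega))
  have h3 := h1.sub h0 hV h2.1
  simp only [res_eq D K Y hH]
  exact h3

end Pool.Agent.J6H33.AD
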