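import Pool.Agent.J6H33.AD.Ana3
import Pool.Agent.N980.TL.Cls

/-!
# Averaging to arbitrary order, analytic part 4: the corrections from formal solutions (`ana_all : S_ANA`)
-/

set_option autoImplicit false

open Set Filter Topology
open scoped ContDiff

noncomputable section

namespace Pool.Agent.J6H33.AD

open Pool.Agent.N980.TL Pool.Agent.J6H70.AD
open Pool.Agent.N980.TL.Gam_

variable {n N : ℕ}

/-! ### dependence on the line -/

theorem ee_shift (γ : Md n) (P v A : Fin n → ℝ) (kp s : ℝ) :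
    ee γ (P + v + kp • A + (s - 1) • (v + A)) (s - 1) =
      ee γ (P + s • v) s * rem 0 (2 * Real.pi * (∑ i, (γ.1 i : ℝ) * A i) * (kp + (s - 1))) := by
  have h1 : ee γ (P + v + kp • A + (s - 1) • (v + A)) (s - 1) =
      ee γ (P + v + kp • A + (s - 1) • (v + A)) s := by
    have := ee_per (P + v + kp • A + (s - 1) • (v + A)) s γ 0 (-1)
    simp only [Pi.zero_apply, Int.cast_zero, add_zero, Int.cast_neg, Int.cast_one] at this
    rw [← sub_eq_add_neg] at this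
    exact this
  rw [h1, ee_eq, ee_eq]
  unfold rem
  rw [Finset.range_zero, Finset.sum_empty, sub_zero, ← Complex.exp_add, ← add_mul, ← Complex.ofReal_add]
  congr 3
  unfold ff
  simp only [Pi.add_apply, Pi.smul_apply, smul_eq_mul]
  have e : ∑ i, (γ.1 i : ℝ) * (P i + v i + kp * A i + (s - 1) * (v i + A i)) =
      ∑ i, (γ.1 i : ℝ) * (P i + s * v i) + (∑ i, (γ.1 i : ℝ) * A i) * (kp + (s - 1)) := by
    rw [Finset.sum_mul, ← Finset.sum_add_distrib]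
    exact Finset.sum_congr rfl fun i _ => by ring
  rw [e]
  ring

theorem rem_one (y : ℝ) : rem 1 y = rem 0 y - 1 := by
  rw [rem_succ]
  simp

section

variable {X : Type} {m : ℕ} {V kp : X → ℝ} {P v A : X → Fin n → ℝ} {S : ℕ} {c1 C1 : ℝ}

theorem ypB (h0 : S_CLS) (hV : ∀ x, 1 ≤ V x) (hk0 : ∀ x, 0 ≤ kp x) (hk1 : ∀ x, kp x ≤ 1) (γ : Md n) :
    B m V (fun x => ‖A x‖)
      (fun x s => 2 * Real.pi * (∑ i, (γ.1 i : ℝ) * A x i) * (kp x + (s - 1))) := by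
  have h1 : B m V (fun _ => 1) (fun x s => kp x + (s - 1)) := by
    refine B.add h0 (B.const h0 hV kp 1 zero_le_one fun x => ?_)
      (B.fixed hV (f := fun s : ℝ => s - 1) (contDiff_id.sub contDiff_const))
    rw [abs_of_nonneg (hk0 x), mul_one]
    exact hk1 x
  have hpi := Real.pi_pos
  have hs0 : 0 ≤ ∑ i, |(γ.1 i : ℝ)| := Finset.sum_nonneg fun i _ => abs_nonneg _
  have h2 := h1.pmul h0 hV (σ := fun x => 2 * Real.pi * ((∑ i, |(γ.1 i : ℝ)|) * ‖A x‖))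
    (fun x => 2 * Real.pi * (∑ i, (γ.1 i : ℝ) * A x i)) (fun x => by
      rw [abs_mul, abs_of_pos (by positivity : (0 : ℝ) < 2 * Real.pi)]
      exact mul_le_mul_of_nonneg_left (sum_le γ (A x)) (by positivity)) (fun _ => zero_le_one)
  exact h2.mono h0 hV (2 * Real.pi * (∑ i, |(γ.1 i : ℝ)|)) (by positivity) fun x => le_of_eq (by ring)

theorem lipCB (h0 : S_CLS) (hc : 0 < c1) (hV : ∀ x, 1 ≤ V x) (hk0 : ∀ x, 0 ≤ kp x) (hk1 : ∀ x, kp x ≤ 1)
    (hA : ∀ x, ‖A x‖ ≤ 1) (hN : ∀ x, NRS S c1 C1 (V x) (v x)) (hN' : ∀ x, NRS S c1 C1 (V x) (v x + A x))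
    {p : ℕ} {f : RR n} (hf : OU p S f) :
    CB m V (fun x => ‖A x‖ / V x ^ p) (fun x s =>
      ev (v x + A x) (P x + v x + kp x • A x + (s - 1) • (v x + A x)) (s - 1) f -
        ev (v x) (P x + s • v x) s f) := by
  obtain ⟨C, hC, h⟩ := hf c1 C1 hc
  have hp : ∀ x, 0 ≤ 1 / V x ^ p := fun x => by
    have := hV x
    positivity
  have hq : ∀ x, 0 ≤ ‖A x‖ / V x ^ p := fun x => by
    have := hV x
    positivity
  have hA0 : ∀ x, 0 ≤ ‖A x‖ := fun x => norm_nonneg _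
  simp only [ev_eq, ← Finset.sum_sub_distrib]
  refine CB.sum h0 hV _ _ fun γ => ?_
  have hee := eeCB (m := m) (P := P) h0 hV hN γ
  have hy := ypB (m := m) (A := A) h0 hV hk0 hk1 γ
  have h1 : CB m V (fun x => ‖A x‖ / V x ^ p) (fun x (_ : ℝ) =>
      f.coeff γ (v x + A x) - f.coeff γ (v x)) := by
    refine CB.const h0 hV _ C hC fun x => ?_
    have := (h (V x) (v x + A x) (v x) (hV x) (hN' x) (hN x) γ).2
    rw [add_sub_cancel_left] at this
    calc _ ≤ _ := this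
      _ = _ := by ring
  have h2 : CB m V (fun x => 1 / V x ^ p) (fun x (_ : ℝ) => f.coeff γ (v x)) := by
    refine CB.const h0 hV _ C hC fun x => ?_
    rw [mul_one_div]
    exact (h (V x) (v x) (v x) (hV x) (hN x) (hN x) γ).1
  have h3 := (h1.mul h0 hV hq (fun _ => zero_le_one) hee).mul h0 hV (fun x => by simpa using hq x)
    (fun x => pow_nonneg (hA0 x) 0) (remB h0 hV hA0 hA m 0 _ hy)
  have h4 := (h2.mul h0 hV hp (fun _ => zero_le_one) hee).mul h0 hV (fun x => by simpa using hp x)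
    (fun x => pow_nonneg (hA0 x) 1) (remB h0 hV hA0 hA m 1 _ hy)
  have h5 := (h3.mono (σ := fun x => ‖A x‖ / V x ^ p) h0 hV 1 zero_le_one fun x => le_of_eq (by ring)).add h0
    (h4.mono (σ := fun x => ‖A x‖ / V x ^ p) h0 hV 1 zero_le_one fun x => le_of_eq (by ring))
  have e : ∀ (x : X) (s : ℝ), f.coeff γ (v x + A x) *
      ee γ (P x + v x + kp x • A x + (s - 1) • (v x + A x)) (s - 1) -
        f.coeff γ (v x) * ee γ (P x + s • v x) s =
      (f.coeff γ (v x + A x) - f.coeff γ (v x)) * ee γ (P x + s • v x) s *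
        rem 0 (2 * Real.pi * (∑ i, (γ.1 i : ℝ) * A x i) * (kp x + (s - 1))) +
      f.coeff γ (v x) * ee γ (P x + s • v x) s *
        rem 1 (2 * Real.pi * (∑ i, (γ.1 i : ℝ) * A x i) * (kp x + (s - 1))) := by
    intro x s
    rw [ee_shift, rem_one]
    ring
  simp only [e]
  exact h5

end

/-! ### continuity -/

theorem exp_sub_le (a b : ℝ) : ‖Complex.exp ((a : ℂ) * Complex.I) - Complex.exp ((b : ℂ) * Complex.I)‖ ≤ |a - b| := by
  have h := Real.norm_exp_I_mul_ofReal_sub_one_le (x := a - b)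
  have e : Complex.exp ((a : ℂ) * Complex.I) - Complex.exp ((b : ℂ) * Complex.I) =
      Complex.exp ((b : ℂ) * Complex.I) * (Complex.exp (Complex.I * ((a - b : ℝ) : ℂ)) - 1) := by
    rw [mul_sub, mul_one, ← Complex.exp_add]
    congr 2
    push_cast
    ring
  rw [e, norm_mul, Complex.norm_exp_ofReal_mul_I, one_mul]
  exact h

theorem ee_lip (γ : Md n) (θ θ' : Fin n → ℝ) (τ : ℝ) :
    ‖ee γ θ τ - ee γ θ' τ‖ ≤ 2 * Real.pi * (∑ i, |(γ.1 i : ℝ)|) * ‖θ - θ'‖ := by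
  rw [ee_eq, ee_eq]
  refine (exp_sub_le _ _).trans ?_
  have e : 2 * Real.pi * ff γ θ τ - 2 * Real.pi * ff γ θ' τ =
      2 * Real.pi * ∑ i, (γ.1 i : ℝ) * (θ - θ') i := by
    unfold ff
    simp only [Pi.sub_apply, mul_sub, Finset.sum_sub_distrib]
    ring
  have hpi := Real.pi_pos
  rw [e, abs_mul, abs_of_pos (by positivity : (0 : ℝ) < 2 * Real.pi)]
  calc 2 * Real.pi * |∑ i, (γ.1 i : ℝ) * (θ - θ') i|
      ≤ 2 * Real.pi * ((∑ i, |(γ.1 i : ℝ)|) * ‖θ - θ'‖) :=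
        mul_le_mul_of_nonneg_left (sum_le γ _) (by positivity)
    _ = _ := by ring

theorem ev_cont {p S : ℕ} {f : RR n} (hf : OU p S f) {c1 : ℝ} (C1 : ℝ) (hc : 0 < c1) :
    ∃ C : ℝ, 0 ≤ C ∧ ∀ (V : ℝ) (v v' θ θ' : Fin n → ℝ) (τ : ℝ), 1 ≤ V →
      NRS S c1 C1 V v → NRS S c1 C1 V v' →
        ‖ev v θ τ f‖ ≤ C / V ^ p ∧ ‖ev v θ τ f - ev v' θ' τ f‖ ≤ C / V ^ p * (‖θ - θ'‖ + ‖v - v'‖) := by
  obtain ⟨C, hC, h⟩ := hf c1 C1 hc
  have hpi := Real.pi_pos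
  have hk : ∀ γ : Md n, 0 ≤ 2 * Real.pi * (∑ i, |(γ.1 i : ℝ)|) := fun γ => by
    have : 0 ≤ ∑ i, |(γ.1 i : ℝ)| := Finset.sum_nonneg fun i _ => abs_nonneg _
    positivity
  refine ⟨∑ γ ∈ f.coeff.support, C * (1 + 2 * Real.pi * (∑ i, |(γ.1 i : ℝ)|)),
    Finset.sum_nonneg fun γ _ => mul_nonneg hC (by have := hk γ; linarith), ?_⟩
  intro V v v' θ θ' τ hV h1 h2
  have hVp : (0 : ℝ) < V ^ p := pow_pos (by linarith) p
  have hcv : 0 ≤ C / V ^ p := by positivity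
  constructor
  · rw [ev_eq, Finset.sum_div]
    refine (norm_sum_le _ _).trans (Finset.sum_le_sum fun γ _ => ?_)
    rw [norm_mul, norm_ee, mul_one]
    refine (h V v v hV h1 h1 γ).1.trans (div_le_div_of_nonneg_right ?_ hVp.le)
    have := hk γ
    nlinarith
  · rw [ev_eq, ev_eq, ← Finset.sum_sub_distrib, Finset.sum_div, Finset.sum_mul]
    refine (norm_sum_le _ _).trans (Finset.sum_le_sum fun γ _ => ?_)
    have e : f.coeff γ v * ee γ θ τ - f.coeff γ v' * ee γ θ' τ =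
        (f.coeff γ v - f.coeff γ v') * ee γ θ τ + f.coeff γ v' * (ee γ θ τ - ee γ θ' τ) := by ring
    rw [e]
    refine (norm_add_le _ _).trans ?_
    rw [norm_mul, norm_mul, norm_ee, mul_one]
    have a1 := (h V v v' hV h1 h2 γ).2
    have a2 : ‖f.coeff γ v'‖ * ‖ee γ θ τ - ee γ θ' τ‖ ≤
        C / V ^ p * (2 * Real.pi * (∑ i, |(γ.1 i : ℝ)|) * ‖θ - θ'‖) :=
      mul_le_mul (h V v' v' hV h2 h2 γ).1 (ee_lip γ θ θ' τ) (norm_nonneg _) hcv
    have b1 := norm_nonneg (θ - θ')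
    have b2 := norm_nonneg (v - v')
    have b3 := hk γ
    have e2 : C * (1 + 2 * Real.pi * (∑ i, |(γ.1 i : ℝ)|)) / V ^ p * (‖θ - θ'‖ + ‖v - v'‖) =
        C / V ^ p * ‖v - v'‖ + C / V ^ p * (2 * Real.pi * (∑ i, |(γ.1 i : ℝ)|) * ‖θ - θ'‖) +
          (C / V ^ p * ‖θ - θ'‖ + C / V ^ p * (2 * Real.pi * (∑ i, |(γ.1 i : ℝ)|)) * ‖v - v'‖) := by ring
    rw [e2]
    have b4 : 0 ≤ C / V ^ p * ‖θ - θ'‖ + C / V ^ p * (2 * Real.pi * (∑ i, |(γ.1 i : ℝ)|)) * ‖v - v'‖ := by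
      positivity
    linarith

/-! ### the theorem -/

/-- the parameters of a line -/
structure P1 (n S : ℕ) (c1 C1 : ℝ) where
  V : ℝ
  P : Fin n → ℝ
  v : Fin n → ℝ
  hV : 1 ≤ V
  hN : NRS S c1 C1 V v

/-- the parameters of two lines -/
structure P2 (n S : ℕ) (c1 C1 : ℝ) where
  V : ℝ
  kp : ℝ
  P : Fin n → ℝ
  v : Fin n → ℝ
  A : Fin n → ℝ
  hV : 1 ≤ V
  k0 : 0 ≤ kp
  k1 : kp ≤ 1
  hA : ‖A‖ ≤ 1
  hN : NRS S c1 C1 V v
  hN' : NRS S c1 C1 V (v + A)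

/-- a common constant -/
theorem common {ι : Type} [Fintype ι] (p : ι → ℝ → Prop) (hp : ∀ i C C', C ≤ C' → p i C → p i C')
    (h : ∀ i, ∃ C, 0 ≤ C ∧ p i C) : ∃ C : ℝ, 1 ≤ C ∧ ∀ i, p i C := by
  choose C hC hh using h
  refine ⟨1 + ∑ i, C i, ?_, fun i => hp i _ _ ?_ (hh i)⟩
  · have : 0 ≤ ∑ i, C i := Finset.sum_nonneg fun i _ => hC i
    linarith
  · have : C i ≤ ∑ i, C i := Finset.single_le_sum (f := C) (fun i _ => hC i) (Finset.mem_univ i)
    linarith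

/-- `X v θ τ` is a correction of the lines up to order `V^(-K)`, in the classes with `m` derivatives -/
structure CorrM {n N : ℕ} (m : ℕ) (D : Trig n N) (K S : ℕ)
    (X : (Fin n → ℝ) → (Fin n → ℝ) → ℝ → Fin n → ℝ) : Prop where
  per : ∀ v θ τ (a : Fin n → ℤ) (b : ℤ), X v (fun i => θ i + a i) (τ + b) = X v θ τ
  xi : ∀ c1 C1 : ℝ, 0 < c1 → ∃ C : ℝ, 1 ≤ C ∧ ∀ (V : ℝ) (P v : Fin n → ℝ), 1 ≤ V →
    NRS S c1 C1 V v → ∀ i,
      Cls (m + 2) V (C / V ^ 2) (fun s => X v (P + s • v) s i) ∧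
      Cls m V (C / V ^ K) (fun s => deriv (deriv fun s => X v (P + s • v) s i) s -
        D.grad (fun j => P j + s * v j + X v (P + s • v) s j) s i)
  lip : ∀ c1 C1 : ℝ, 0 < c1 → ∃ C : ℝ, 1 ≤ C ∧ ∀ (V kp : ℝ) (P v A : Fin n → ℝ), 1 ≤ V →
    0 ≤ kp → kp ≤ 1 → ‖A‖ ≤ 1 → NRS S c1 C1 V v → NRS S c1 C1 V (v + A) → ∀ i,
      Cls (m + 2) V (C * ‖A‖ / V ^ 2) (fun s =>
        X (v + A) (P + v + kp • A + (s - 1) • (v + A)) (s - 1) i - X v (P + s • v) s i)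
  cont : ∀ c1 C1 : ℝ, 0 < c1 → ∃ C : ℝ, 1 ≤ C ∧ ∀ (V : ℝ) (v v' θ θ' : Fin n → ℝ) (τ : ℝ), 1 ≤ V →
    NRS S c1 C1 V v → NRS S c1 C1 V v' → ∀ i,
      |X v θ τ i| ≤ C / V ^ 2 ∧ |X v θ τ i - X v' θ' τ i| ≤ C / V ^ 2 * (‖θ - θ'‖ + ‖v - v'‖)

/-- formal solutions give corrections, with the same `S` for all numbers `m` of derivatives -/
theorem ana_allM (n N : ℕ) (D : Trig n N) (K : ℕ) (Y : Fin n → RR n) (hY : ∀ i, Ord 2 (Y i))
    (hH : ∀ i, Herm (Y i)) (hR : ∀ i, Ord K (LL (Y i) - GG D K Y i)) :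
    ∃ S : ℕ, ∀ m : ℕ, CorrM m D K S (fun v θ τ i => (ev v θ τ (Y i)).re) := by
  choose S1 hS1 using fun i => Ord.unif (hY i)
  choose S2 hS2 using fun i => Ord.unif (hR i)
  set S := (Finset.univ.sup S1) ⊔ (Finset.univ.sup S2) with hS
  have hO : ∀ i, OU 2 S (Y i) := fun i =>
    (hS1 i).mono ((Finset.le_sup (f := S1) (Finset.mem_univ i)).trans le_sup_left)
  have hQ : ∀ i, OU K S (LL (Y i) - GG D K Y i) := fun i =>
    (hS2 i).mono ((Finset.le_sup (f := S2) (Finset.mem_univ i)).trans le_sup_right)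
  refine ⟨S, fun m => ⟨?_, ?_, ?_, ?_⟩⟩
  · intro v θ τ a b
    funext i
    show (ev v (fun i => θ i + a i) (τ + b) (Y i)).re = (ev v θ τ (Y i)).re
    rw [ev_per]
  · intro c1 C1 hc
    have q := common (fun (i : Fin n) (C : ℝ) => ∀ (V : ℝ) (P v : Fin n → ℝ), 1 ≤ V → NRS S c1 C1 V v →
      Cls (m + 2) V (C / V ^ 2) (fun s => (ev v (P + s • v) s (Y i)).re) ∧
      Cls m V (C / V ^ K) (fun s => deriv (deriv fun s => (ev v (P + s • v) s (Y i)).re) s -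
        D.grad (fun j => P j + s * v j + (ev v (P + s • v) s (Y j)).re) s i)) ?_ ?_
    · obtain ⟨C, hC, h⟩ := q
      exact ⟨C, hC, fun V P v hV hN i => h i V P v hV hN⟩
    · intro i C C' hCC h V P v hV hN
      obtain ⟨h1, h2⟩ := h V P v hV hN
      have hV0 : 0 ≤ V := by linarith
      exact ⟨cls_all.1 _ _ _ _ _ hV0 (div_le_div_of_nonneg_right hCC (by positivity)) h1,
        cls_all.1 _ _ _ _ _ hV0 (div_le_div_of_nonneg_right hCC (by positivity)) h2⟩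
    · intro i
      obtain ⟨C, hC, h⟩ := (evCB (m := m + 2) (V := (P1.V : P1 n S c1 C1 → ℝ)) (P := P1.P) (v := P1.v) cls_all hc
        (fun x => x.hV) (fun x => x.hN) (hO i)).1
      obtain ⟨C', hC', h'⟩ := resB (m := m) (V := (P1.V : P1 n S c1 C1 → ℝ)) (P := P1.P) (v := P1.v) cls_all hc
        (fun x => x.hV) (fun x => x.hN) D K Y hO hH i (hQ i)
      refine ⟨C + C', by positivity, fun V P v hV hN => ?_⟩
      have hV0 : 0 ≤ V := by linarith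
      have a1 := h ⟨V, P, v, hV, hN⟩
      have a2 := h' ⟨V, P, v, hV, hN⟩
      refine ⟨cls_all.1 _ _ _ _ _ hV0 ?_ a1, cls_all.1 _ _ _ _ _ hV0 ?_ a2⟩
      · show C * (1 / V ^ 2) ≤ (C + C') / V ^ 2
        rw [mul_one_div]
        exact div_le_div_of_nonneg_right (by linarith) (by positivity)
      · show C' * (1 / V ^ K) ≤ (C + C') / V ^ K
        rw [mul_one_div]
        exact div_le_div_of_nonneg_right (by linarith) (by positivity)
  · intro c1 C1 hc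
    have q := common (fun (i : Fin n) (C : ℝ) => ∀ (V kp : ℝ) (P v A : Fin n → ℝ), 1 ≤ V →
      0 ≤ kp → kp ≤ 1 → ‖A‖ ≤ 1 → NRS S c1 C1 V v → NRS S c1 C1 V (v + A) →
      Cls (m + 2) V (C * ‖A‖ / V ^ 2) (fun s =>
        (ev (v + A) (P + v + kp • A + (s - 1) • (v + A)) (s - 1) (Y i)).re -
          (ev v (P + s • v) s (Y i)).re)) ?_ ?_
    · obtain ⟨C, hC, h⟩ := q
      exact ⟨C, hC, fun V kp P v A hV k0 k1 hA h1 h2 i => h i V kp P v A hV k0 k1 hA h1 h2⟩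
    · intro i C C' hCC h V kp P v A hV k0 k1 hA h1 h2
      have hV0 : 0 ≤ V := by linarith
      refine cls_all.1 _ _ _ _ _ hV0 ?_ (h V kp P v A hV k0 k1 hA h1 h2)
      exact div_le_div_of_nonneg_right (mul_le_mul_of_nonneg_right hCC (norm_nonneg _)) (by positivity)
    · intro i
      obtain ⟨C, hC, h⟩ := (lipCB (m := m + 2) (V := (P2.V : P2 n S c1 C1 → ℝ)) (kp := P2.kp) (P := P2.P)
        (v := P2.v) (A := P2.A) cls_all hc (fun x => x.hV) (fun x => x.k0) (fun x => x.k1) (fun x => x.hA)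
        (fun x => x.hN) (fun x => x.hN') (hO i)).1
      refine ⟨C, hC, fun V kp P v A hV k0 k1 hA h1 h2 => ?_⟩
      have hV0 : 0 ≤ V := by linarith
      have a1 := h ⟨V, kp, P, v, A, hV, k0, k1, hA, h1, h2⟩
      simp only [Complex.sub_re] at a1
      refine cls_all.1 _ _ _ _ _ hV0 ?_ a1
      exact le_of_eq (by ring)
  · intro c1 C1 hc
    have q := common (fun (i : Fin n) (C : ℝ) => ∀ (V : ℝ) (v v' θ θ' : Fin n → ℝ) (τ : ℝ), 1 ≤ V →
      NRS S c1 C1 V v → NRS S c1 C1 V v' →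
      |(ev v θ τ (Y i)).re| ≤ C / V ^ 2 ∧
        |(ev v θ τ (Y i)).re - (ev v' θ' τ (Y i)).re| ≤ C / V ^ 2 * (‖θ - θ'‖ + ‖v - v'‖)) ?_ ?_
    · obtain ⟨C, hC, h⟩ := q
      exact ⟨C, hC, fun V v v' θ θ' τ hV h1 h2 i => h i V v v' θ θ' τ hV h1 h2⟩
    · intro i C C' hCC h V v v' θ θ' τ hV h1 h2
      obtain ⟨x1, x2⟩ := h V v v' θ θ' τ hV h1 h2
      have hle : C / V ^ 2 ≤ C' / V ^ 2 := div_le_div_of_nonneg_right hCC (by positivity)
      exact ⟨x1.trans hle, x2.trans (mul_le_mul_of_nonneg_right hle (by positivity))⟩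
    · intro i
      obtain ⟨C, hC, h⟩ := ev_cont (hO i) C1 hc
      refine ⟨C, hC, fun V v v' θ θ' τ hV h1 h2 => ?_⟩
      obtain ⟨x1, x2⟩ := h V v v' θ θ' τ hV h1 h2
      refine ⟨(Complex.abs_re_le_norm _).trans x1, ?_⟩
      rw [← Complex.sub_re]
      exact (Complex.abs_re_le_norm _).trans x2

theorem ana_all : S_ANA := by
  intro n N D K Y hY hH hR
  obtain ⟨S, h⟩ := ana_allM n N D K Y hY hH hR
  exact ⟨S, (h 2).per, (h 2).xi, (h 2).lip, (h 2).cont⟩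

end Pool.Agent.J6H33.AD
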